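import Mathlib
import Pool.Graph.R_pool_sql_team_seeded_843ab51a.V1168.EF.Cycle
import Pool.Agent.H855.CM.Fam

/-!
# Cycle class maps of the products of arbitrary schemes with abelian varieties without exotic classes:
the exceptional factors have small dimension

Let `K i` (`i` in a set `I`, possibly infinite) be CM fields and `V i` the space of the odd rational
functions on the complex embeddings of `K i`, a representation of the automorphisms of `ℂ`. Let `π i`
be Weil numbers for `q = p ^ a` in `K i`. We only suppose that the family is *independent*
(`IsIndependent`): the slope vectors of the `π i` and their translates satisfy no nontrivial linear
relation with rational coefficients (`NoSlopeRelations`; equivalently, all Tate classes on all products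
of powers of the abelian varieties of the `π i` are polynomials in divisor classes). The `K i` may be
equal, isomorphic or related. A sufficient condition: the `K i` are pairwise unrelated and there are no
relations for the single `π i`; and for this it is sufficient that

* the `K i` are good (`IsGoodField`): `V i` is irreducible, or `[K i : ℚ]` is twice an odd prime number,
  or for **some** prime number `r` the maximal real subfield has a place over `r` of a degree `n` which is
  prime to the degrees of all other places over `r`, with `2 ≤ n < g` and further conditions
  (`HasCoprimePlace`);
* their normal closures are different, and no imaginary quadratic field is contained in two of them;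
* for every `i` not all slopes are `1 / 2`, and `V i` is irreducible or, for each imaginary quadratic
  subfield of `K i` and one of its embeddings, the slope vector is not constant on the extensions of
  this embedding, and its sum over them is not zero (`HasGoodSlopes`).

Let `X` be **any** variety over the field with `Q = q ^ s` elements (separated and of finite type,
singular, not proper) such that the Frobenius endomorphism of `X` satisfies on the groups
`H_(2 i)(A × X, ℚ_ℓ(i))` and `CH_i(A × X)` nonzero rational polynomials all of whose complex roots are
generated by a finite set `Ω` of complex numbers and `p`, which is stable under the automorphisms of `ℂ`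
and consists of nonzero elements of CM fields or totally real fields (`IsStable`, `DiagGenerated`).
(For the homology this says that the Frobenius eigenvalues of `X` on the homology of even degree are
generated by `Ω`. For the Chow groups it is true for instance if moreover `X` has a stratification by
open subsets of smooth projective varieties with finite-dimensional motives and Frobenius eigenvalues
generated by `Ω`.)

**The theorem: there is a finite subset `S` of `I` with `∑ w i ≤ |Ω|`, the sum over `i` in `S`, such
that for all abelian varieties `A` without simple factors given by the `π i`, `i` in `S`, and all `X` as
above, the cycle class map of `A × X` in codimension `c` is a bijection from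
`CH ⊗ ℚ_ℓ` onto the Galois invariants if and only if the ones of `X` in the codimensions `c - k`,
`0 ≤ k ≤ dim A`, are** (`CycleMapTimes`). Here `w i` is twice a lower bound for the dimensions of the
nonzero stable subspaces of `V i`; so `w i = [K i : ℚ]` if `V i` is irreducible, in particular if `K i`
is good and contains no imaginary quadratic field, and `w i = 2` is always possible (`IsWeight`). The
set `S` depends only on `Ω` and the `π i`. In particular, if `X` has only bijective cycle class maps (for
example if `X` is a point or a curve, singular or open) the same is true for `A × X`.

The groups are indexed by the codimension `c`: let `e` be the dimension of `X` (or any fixed number)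
and `T^(2 c)(X, c) = CH_(e - c)(X) ⊗ ℚ_ℓ`, `R^(2 c)(X, c) = H_(2 (e - c))(X, ℚ_ℓ(e - c))`, and the same
for `A × X` with `e + dim A` instead of `e`.

The result `EveryVarietyTimes` of an earlier run supposes that the `K i` have pair flips (`PairFlips`,
then the `V i` are absolutely irreducible and pairwise unrelated).

The framework: the Chow ring and the ring of correspondences of `A`, with rational coefficients, and
the cohomology of `A`, with the formal properties and the theorems of Tate on divisors and of Kimura
on the nilpotence of homologically trivial correspondences (`AbelianData`, `IsAbelian`); and theories
relative to `X` (`RelData`, `IsRel`): the groups `H^i(X, j)` and `H^i(A × X, j)`, with the products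
with classes on `A`, the push-forward from `A × X` to `X`, the operation of the correspondences from
`A` to `A` on `H^i(A × X, j)` and the Frobenius endomorphism of `X`.

The proof. Let `F` be the rational space generated by the functions `σ ↦ v (σ β) - v (conj (σ β))` of the
automorphisms `σ` of `ℂ`, `β` in `Ω`; its dimension is at most `|Ω| / 2`. By assumption the map `n ↦ (σ ↦
∑ n (i, φ) x i (σ φ))` from the odd functions with finite support on the embeddings of all the fields to
the functions of the automorphisms is injective. For finite subsets `S` of `I` let `W (S)` be the space
of the `n` with values in `F` which vanish at the indices in `S`; its dimension is at most `|Ω| / 2`. If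
`W (S)` is not zero let `i` be an index with a nonzero component; the `i`-th components of the elements
of `W (S)` form a nonzero stable subspace of `V i`, so that the dimension of `W (S ∪ {i})` is smaller by
at least `w i / 2`. This gives an `S` with `W (S) = 0` and the bound (`greedy`). Then there are no
relations between the `π i`, `i` not in `S`, and the numbers generated by `Ω`, and the theorem follows
from the theorems of Tate and Kimura (`EF.cycleMapTimes`).
-/

set_option autoImplicit false

namespace Pool.Agent.Results.MP_3af9db_ag.ExceptionalFactors

open NumberField Pool.Agent.V1168.EF Pool.Agent.H855.CM

/-- **The cycle class map of `A × X` in codimension `c` is an isomorphism if and only if the ones of `X` in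
the codimensions `c - k`, `0 ≤ k ≤ dim A`, are, for all `X` with Frobenius eigenvalues generated by the
stable finite set `Ω` and all abelian varieties `A` in an independent family given by Weil numbers `π i`
in CM fields, without factors in an exceptional set `S` with `∑ w i ≤ |Ω|`.** -/
theorem result {p : ℕ} [Fact p.Prime] (ν : PadicAlgCl p ≃+* ℂ) {I : Type}
    (K : I → Type) [∀ i, Field (K i)] [∀ i, NumberField (K i)] [∀ i, IsCMField (K i)]
    (a : ℕ) (ha : 0 < a) (π : ∀ i, K i)
    (hπ : ∀ i, π i * IsCMField.complexConj (K i) (π i) = (p : K i) ^ a)
    (hI : IsIndependent ν a π) (w : I → ℕ) (hw : ∀ i, IsWeight (K i) (w i))
    (Ω : Finset ℂ) (hΩ : IsStable Ω) :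
    ∃ S : Finset I, ∑ i ∈ S, w i ≤ Ω.card ∧
      ForAllPolys π (p ^ a) S (fun _ q f => CycleMapTimes p Ω q f) := by
  obtain ⟨S, hS, h⟩ := exists_factorsW ν ha hπ hI w hw hΩ
  exact ⟨S, hS, h _ fun J q f hq hR => cycleMapTimes hq hR⟩

end Pool.Agent.Results.MP_3af9db_ag.ExceptionalFactors
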